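import Pool.Agent.W558.WT.Stms2
import Pool.Agent.W558.WT.Pi

set_option autoImplicit false
set_option linter.unusedVariables false
set_option linter.unusedSectionVars false

universe u

open TensorProduct

namespace Pool.Agent.W135.WT.Fam

open Pool.Agent.W558 Pool.Agent.W558.WT

section

variable {k : Type u} [Field k] {n : ℕ} {E : Fin (n + 1) → Type u} [∀ i, Field (E i)]
  [∀ i, Algebra k (E i)]

/-- the tensor product of the first factors -/
abbrev A1 (k : Type u) [Field k] {n : ℕ} (E : Fin (n + 1) → Type u) [∀ i, Field (E i)]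
    [∀ i, Algebra k (E i)] : Type u := ⨂[k] i : Fin n, E i.castSucc

lemma exists_psi : ∃ ψ : A1 k E →ₐ[k] (⨂[k] i, E i),
    ∀ (i : Fin n) a, ψ (sg (k := k) (A := fun i : Fin n => E i.castSucc) i a) =
      sg (k := k) (A := E) i.castSucc a :=
  pi_lift (k := k) (A := fun i : Fin n => E i.castSucc) (⨂[k] i, E i)
    fun i => sg (k := k) (A := E) i.castSucc

lemma exists_theta : ∃ θ : (⨂[k] i, E i) →ₐ[k] (A1 k E ⊗[k] E (Fin.last n)),
    (∀ (i : Fin n) a, θ (sg (k := k) (A := E) i.castSucc a) =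
      (sg (k := k) (A := fun i : Fin n => E i.castSucc) i a) ⊗ₜ[k] (1 : E (Fin.last n))) ∧
    ∀ a, θ (sg (k := k) (A := E) (Fin.last n) a) = (1 : A1 k E) ⊗ₜ[k] a := by
  obtain ⟨g, hg⟩ := pi_lift (k := k) (A := E) (A1 k E ⊗[k] E (Fin.last n)) (fun i =>
    Fin.lastCases (motive := fun i => E i →ₐ[k] (A1 k E ⊗[k] E (Fin.last n)))
      (Algebra.TensorProduct.includeRight : E (Fin.last n) →ₐ[k] (A1 k E ⊗[k] E (Fin.last n)))
      (fun i => (Algebra.TensorProduct.includeLeft :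
        A1 k E →ₐ[k] (A1 k E ⊗[k] E (Fin.last n))).comp
          (sg (k := k) (A := fun i : Fin n => E i.castSucc) i)) i)
  refine ⟨g, ?_, ?_⟩
  · intro i a
    rw [hg, Fin.lastCases_castSucc]
    rfl
  · intro a
    rw [hg, Fin.lastCases_last]
    rfl

end

theorem step (p : ℕ) (k : Type u) [Field k] (hprod : WA_prod.{u}) (n : ℕ)
    (ih : ∀ (L : Type u) [Field L] [Algebra k L]
      (E : Fin n → Type u) [∀ i, Field (E i)] [∀ i, Algebra k (E i)] (e : ∀ i, E i →ₐ[k] L)
      (φ : (⨂[k] i, E i) →ₐ[k] L),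
      (∀ i a, φ (PiTensorProduct.singleAlgHom (R := k) (A := E) i a) = e i a) →
      Function.Injective φ → (∀ x : L, ∃ a b, φ b ≠ 0 ∧ x * φ b = φ a) →
      ∀ (G : Type) (f : ∀ i, E i) (c : ∀ i, G → E i), (∀ i, GMA p k (fun _ : Unit => f i) (c i)) →
      GMA p k (fun i => e i (f i)) (fun q : Fin n × G => e q.1 (c q.1 q.2)))
    (L : Type u) [Field L] [Algebra k L]
    (E : Fin (n + 1) → Type u) [∀ i, Field (E i)] [∀ i, Algebra k (E i)] (e : ∀ i, E i →ₐ[k] L)
    (φ : (⨂[k] i, E i) →ₐ[k] L)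
    (hφ : ∀ i a, φ (sg (k := k) (A := E) i a) = e i a)
    (hinj : Function.Injective φ) (hfr : ∀ x : L, ∃ a b, φ b ≠ 0 ∧ x * φ b = φ a)
    (G : Type) (f : ∀ i, E i) (c : ∀ i, G → E i)
    (hG : ∀ i, GMA p k (fun _ : Unit => f i) (c i)) :
    GMA p k (fun i => e i (f i)) (fun q : Fin (n + 1) × G => e q.1 (c q.1 q.2)) := by
  obtain ⟨ψ, hψ⟩ := exists_psi (k := k) (E := E)
  obtain ⟨θ, hθ1, hθ2⟩ := exists_theta (k := k) (E := E)
  -- the subfield
  let S : Set L := ⋃ i : Fin n, Set.range (e i.castSucc)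
  let L' : IntermediateField k L := IntermediateField.adjoin k S
  have hmem : ∀ (i : Fin n) (a : E i.castSucc), e i.castSucc a ∈ L' := fun i a =>
    IntermediateField.subset_adjoin k S (Set.mem_iUnion.2 ⟨i, a, rfl⟩)
  let e' : ∀ i : Fin n, E i.castSucc →ₐ[k] L' := fun i =>
    (e i.castSucc).codRestrict L'.toSubalgebra (hmem i)
  have he' : ∀ (i : Fin n) (a : E i.castSucc), L'.val (e' i a) = e i.castSucc a := fun i a => rfl
  obtain ⟨φ', hφ'⟩ := pi_lift (k := k) (A := fun i : Fin n => E i.castSucc) L' e'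
  -- comparison
  have hcmp : L'.val.comp φ' = φ.comp ψ := by
    apply pi_ext
    intro i a
    rw [AlgHom.comp_apply, AlgHom.comp_apply, hφ', hψ, hφ, he']
  have hcmp' : ∀ r, L'.val (φ' r) = φ (ψ r) := fun r => DFunLike.congr_fun hcmp r
  have hθψ : ∀ r, θ (ψ r) = r ⊗ₜ[k] (1 : E (Fin.last n)) := by
    have h1 : θ.comp ψ = (Algebra.TensorProduct.includeLeft :
        A1 k E →ₐ[k] (A1 k E ⊗[k] E (Fin.last n))) := by
      apply pi_ext
      intro i a
      rw [AlgHom.comp_apply, hψ, hθ1]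
      rfl
    exact fun r => DFunLike.congr_fun h1 r
  have hψinj : Function.Injective ψ := by
    intro r r' h
    have h1 : r ⊗ₜ[k] (1 : E (Fin.last n)) = r' ⊗ₜ[k] (1 : E (Fin.last n)) := by
      rw [← hθψ, ← hθψ, h]
    exact Algebra.TensorProduct.includeLeft_injective (S := k)
      (algebraMap k (E (Fin.last n))).injective h1
  have hφ'inj : Function.Injective φ' := by
    intro r r' h
    apply hψinj
    apply hinj
    rw [← hcmp', ← hcmp', h]
  -- fractions in the subfield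
  have hrange : ∀ x ∈ Algebra.adjoin k S, ∃ r, L'.val (φ' r) = x := by
    intro x hx
    have h1 : Algebra.adjoin k S ≤ (L'.val.comp φ').range := by
      rw [Algebra.adjoin_le_iff]
      intro y hy
      obtain ⟨i, a, rfl⟩ := Set.mem_iUnion.1 hy
      refine ⟨sg (k := k) (A := fun i : Fin n => E i.castSucc) i a, ?_⟩
      change L'.val (φ' _) = _
      rw [hφ', he']
    obtain ⟨r, hr⟩ := h1 hx
    exact ⟨r, hr⟩
  have hfr' : ∀ x : L', ∃ a b, φ' b ≠ 0 ∧ x * φ' b = φ' a := by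
    intro x
    obtain ⟨r, hr, s, hs, hx⟩ := (IntermediateField.mem_adjoin_iff_div).1 x.2
    obtain ⟨r', hr'⟩ := hrange r hr
    obtain ⟨s', hs'⟩ := hrange s hs
    by_cases h0 : s = 0
    · refine ⟨0, 1, ?_, ?_⟩
      · rw [map_one]; exact one_ne_zero
      · apply Subtype.ext
        change (x : L) * L'.val (φ' 1) = L'.val (φ' 0)
        rw [hx, h0, div_zero, zero_mul, map_zero, map_zero]
    · refine ⟨r', s', ?_, ?_⟩
      · intro h
        apply h0
        rw [← hs', h, map_zero]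
      · apply Subtype.ext
        change (x : L) * L'.val (φ' s') = L'.val (φ' r')
        rw [hx, hs', hr', div_mul_cancel₀ _ h0]
  have h1 := ih L' (fun i : Fin n => E i.castSucc) e' φ' hφ' hφ'inj hfr' G
    (fun i => f i.castSucc) (fun i => c i.castSucc) (fun i => hG i.castSucc)
  -- the product
  let Pm : (L' ⊗[k] E (Fin.last n)) →ₐ[k] L :=
    Algebra.TensorProduct.productMap L'.val (e (Fin.last n))
  have hPm : ∀ (x : L') (a : E (Fin.last n)), Pm (x ⊗ₜ[k] a) = (x : L) * e (Fin.last n) a :=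
    fun x a => Algebra.TensorProduct.productMap_apply_tmul _ _ _ _
  let Q : (A1 k E ⊗[k] E (Fin.last n)) →ₐ[k] (L' ⊗[k] E (Fin.last n)) :=
    Algebra.TensorProduct.map φ' (AlgHom.id k _)
  have hQ : ∀ (r : A1 k E) (a : E (Fin.last n)), Q (r ⊗ₜ[k] a) = φ' r ⊗ₜ[k] a := fun r a => rfl
  let R : (A1 k E ⊗[k] E (Fin.last n)) →ₐ[k] (⨂[k] i, E i) :=
    Algebra.TensorProduct.productMap ψ (sg (k := k) (A := E) (Fin.last n))
  have hR : ∀ (r : A1 k E) (a : E (Fin.last n)),
      R (r ⊗ₜ[k] a) = ψ r * sg (k := k) (A := E) (Fin.last n) a :=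
    fun x a => Algebra.TensorProduct.productMap_apply_tmul _ _ _ _
  have hRinj : Function.Injective R := by
    have h2 : θ.comp R = AlgHom.id k _ := by
      apply Algebra.TensorProduct.ext'
      intro r a
      rw [AlgHom.comp_apply, hR, map_mul, hθψ, hθ2, Algebra.TensorProduct.tmul_mul_tmul, one_mul,
        mul_one]
      rfl
    intro x y hxy
    have h3 : ∀ z, θ (R z) = z := fun z => DFunLike.congr_fun h2 z
    rw [← h3 x, ← h3 y, hxy]
  have hPQ : ∀ s, Pm (Q s) = φ (R s) := by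
    have h2 : Pm.comp Q = φ.comp R := by
      apply Algebra.TensorProduct.ext'
      intro r a
      rw [AlgHom.comp_apply, AlgHom.comp_apply, hQ, hPm, hR, map_mul, hφ, ← hcmp']
      rfl
    exact fun s => DFunLike.congr_fun h2 s
  have hPQθ : ∀ z, Pm (Q (θ z)) = φ z := by
    have h2 : (Pm.comp Q).comp θ = φ := by
      apply pi_ext
      intro i
      refine Fin.lastCases ?_ (fun i => ?_) i
      · intro a
        rw [AlgHom.comp_apply, AlgHom.comp_apply, hθ2, hQ, map_one, hPm, hφ]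
        rw [OneMemClass.coe_one, one_mul]
      · intro a
        rw [AlgHom.comp_apply, AlgHom.comp_apply, hθ1, hQ, hPm, map_one, mul_one, hφ, hφ']
        rfl
    exact fun z => DFunLike.congr_fun h2 z
  -- common denominators
  have hden : ∀ t : L' ⊗[k] E (Fin.last n), ∃ (d : A1 k E) (s : A1 k E ⊗[k] E (Fin.last n)),
      φ' d ≠ 0 ∧ (φ' d ⊗ₜ[k] (1 : E (Fin.last n))) * t = Q s := by
    intro t
    induction t using TensorProduct.induction_on with
    | zero => exact ⟨1, 0, by rw [map_one]; exact one_ne_zero, by rw [mul_zero, map_zero]⟩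
    | tmul l a =>
      obtain ⟨r, d, hd, h⟩ := hfr' l
      refine ⟨d, r ⊗ₜ[k] a, hd, ?_⟩
      rw [Algebra.TensorProduct.tmul_mul_tmul, one_mul, mul_comm, h, hQ]
    | add x y hx hy =>
      obtain ⟨d1, s1, h1, h1'⟩ := hx
      obtain ⟨d2, s2, h2, h2'⟩ := hy
      refine ⟨d1 * d2, (d2 ⊗ₜ[k] 1) * s1 + (d1 ⊗ₜ[k] 1) * s2, ?_, ?_⟩
      · rw [map_mul]; exact mul_ne_zero h1 h2
      · rw [map_add, map_mul Q, map_mul Q, ← h1', ← h2', hQ, hQ, map_mul φ']
        have h3 : (φ' d1 * φ' d2) ⊗ₜ[k] (1 : E (Fin.last n)) =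
            (φ' d1 ⊗ₜ[k] (1 : E (Fin.last n))) * (φ' d2 ⊗ₜ[k] (1 : E (Fin.last n))) := by
          rw [Algebra.TensorProduct.tmul_mul_tmul, one_mul]
        rw [h3]
        ring
  have hPinj : Function.Injective Pm := by
    rw [injective_iff_map_eq_zero]
    intro t ht
    obtain ⟨d, s, hd, hds⟩ := hden t
    have h2 : φ (R s) = 0 := by
      rw [← hPQ, ← hds, map_mul, ht, mul_zero]
    have h3 : R s = 0 := hinj (by rw [h2, map_zero])
    have h4 : s = 0 := hRinj (by rw [h3, map_zero])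
    rw [h4, map_zero] at hds
    have h5 : ((φ' d)⁻¹ ⊗ₜ[k] (1 : E (Fin.last n))) * (φ' d ⊗ₜ[k] (1 : E (Fin.last n))) =
        (1 : L' ⊗[k] E (Fin.last n)) := by
      rw [Algebra.TensorProduct.tmul_mul_tmul, one_mul, inv_mul_cancel₀ hd]
      rfl
    calc t = 1 * t := (one_mul t).symm
      _ = 0 := by rw [← h5, mul_assoc, hds, mul_zero]
  have hPfr : ∀ x : L, ∃ a b : L' ⊗[k] E (Fin.last n), b ≠ 0 ∧ x * Pm b = Pm a := by
    intro x
    obtain ⟨a, b, hb, h⟩ := hfr x
    refine ⟨Q (θ a), Q (θ b), ?_, ?_⟩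
    · intro h0
      apply hb
      rw [← hPQθ, h0, map_zero]
    · rw [hPQθ, hPQθ, h]
  have h3 := gma_prod hprod L'.val (e (Fin.last n)) hPinj hPfr h1 (hG (Fin.last n))
  have h4 := h3.reindex
    (fun i : Fin (n + 1) => Fin.lastCases (motive := fun _ => Fin n ⊕ Unit) (Sum.inr ())
      (fun i => Sum.inl i) i)
    (by
      intro i j
      refine Fin.lastCases ?_ (fun i => ?_) i <;> refine Fin.lastCases ?_ (fun j => ?_) j <;>
        simp)
    (fun q : Fin (n + 1) × G => Fin.lastCases (motive := fun _ => (Fin n × G) ⊕ G) (Sum.inr q.2)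
      (fun i => Sum.inl (i, q.2)) q.1)
  convert h4 using 1
  · funext i
    refine Fin.lastCases ?_ (fun i => ?_) i
    · simp
    · simp only [Function.comp_apply, Fin.lastCases_castSucc, Sum.elim_inl]
      exact (he' i _).symm
  · funext q
    obtain ⟨i, g⟩ := q
    refine Fin.lastCases ?_ (fun i => ?_) i
    · simp
    · simp only [Function.comp_apply, Fin.lastCases_castSucc, Sum.elim_inl]
      exact (he' i _).symm

theorem zero (p : ℕ) (k : Type u) [Field k] (L : Type u) [Field L] [Algebra k L]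
    (E : Fin 0 → Type u) [∀ i, Field (E i)] [∀ i, Algebra k (E i)] (e : ∀ i, E i →ₐ[k] L)
    (φ : (⨂[k] i, E i) →ₐ[k] L)
    (hfr : ∀ x : L, ∃ a b, φ b ≠ 0 ∧ x * φ b = φ a)
    (G : Type) (f : ∀ i, E i) (c : ∀ i, G → E i) :
    GMA p k (fun i => e i (f i)) (fun q : Fin 0 × G => e q.1 (c q.1 q.2)) := by
  have : IsEmpty (Fin 0 × G) := inferInstance
  refine gma_point ?_ _ _
  have hall : ∀ z : (⨂[k] i, E i), ∃ c : k, φ z = algebraMap k L c := by
    intro z
    have h1 : z ∈ (⊤ : Subalgebra k (⨂[k] i, E i)) := trivial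
    rw [← pi_adjoin, Set.iUnion_of_empty, Algebra.adjoin_empty, Algebra.mem_bot] at h1
    obtain ⟨c, hc⟩ := h1
    exact ⟨c, by rw [← hc, AlgHom.commutes]⟩
  intro x
  obtain ⟨a, b, hb, h⟩ := hfr x
  obtain ⟨ca, hca⟩ := hall a
  obtain ⟨cb, hcb⟩ := hall b
  rw [hca, hcb] at h
  rw [hcb] at hb
  refine ⟨ca / cb, ?_⟩
  rw [map_div₀, div_eq_iff hb, h]

theorem main (hprod : WA_prod.{u}) : WT_fam.{u} := by
  intro p k L _ _ _ n
  induction n generalizing L with
  | zero =>
    intro E _ _ e φ hφ hinj hfr G f c hG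
    exact zero p k L E e φ hfr G f c
  | succ n ih =>
    intro E _ _ e φ hφ hinj hfr G f c hG
    exact step p k hprod n (fun L _ _ E _ _ e φ => ih L E e φ) L E e φ hφ hinj hfr G f c hG

end Pool.Agent.W135.WT.Fam
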